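import Pool.Agent.helper75.WB.SpecI

/-!
# Row wb:I.ILA (MP_bb5cc8_nt): lift of one class
-/

set_option autoImplicit false

namespace Pool.Agent.WB

open Finset

theorem ILA : ILA_stmt := by
  intro N p b q q' x y X0 hp hco hq' hqq hxy hx hy
  have hX0 : 0 ≤ X0 := (abs_nonneg _).trans hx
  have hq'R : (0 : ℝ) < |(q' : ℝ)| := abs_pos.mpr (by exact_mod_cast hq')
  have hpR : (0 : ℝ) < (p : ℝ) := by exact_mod_cast hp
  have hNR : (0 : ℝ) ≤ (N : ℝ) := Nat.cast_nonneg N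
  by_cases hex : ∃ n : ℕ, 1 ≤ n ∧ n ≤ N ∧ (n : ZMod p) = b
  · classical
    obtain ⟨n0, hn0, hmin⟩ : ∃ n0 : ℕ, (1 ≤ n0 ∧ n0 ≤ N ∧ (n0 : ZMod p) = b) ∧
        ∀ m : ℕ, (1 ≤ m ∧ m ≤ N ∧ (m : ZMod p) = b) → n0 ≤ m :=
      ⟨Nat.find hex, Nat.find_spec hex, fun m hm => Nat.find_min' hex hm⟩
    obtain ⟨s, t, hst⟩ := hco
    obtain ⟨k, hk⟩ : ∃ k : ℤ, k = ((n0 : ℤ) * s) / q' := ⟨_, rfl⟩
    obtain ⟨u0, hu0⟩ : ∃ u0 : ℤ, u0 = ((n0 : ℤ) * s) % q' := ⟨_, rfl⟩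
    obtain ⟨v0, hv0⟩ : ∃ v0 : ℤ, v0 = (n0 : ℤ) * t + k * q := ⟨_, rfl⟩
    have hdiv : u0 + q' * k = (n0 : ℤ) * s := by
      rw [hu0, hk]; exact Int.emod_add_mul_ediv _ _
    have hu0nn : 0 ≤ u0 := by rw [hu0]; exact Int.emod_nonneg _ hq'
    have hu0lt : u0 < |q'| := by rw [hu0]; exact Int.emod_lt_abs _ hq'
    have hrep : u0 * q + v0 * q' = (n0 : ℤ) := by
      have h1 : u0 = (n0 : ℤ) * s - q' * k := by linarith
      rw [h1, hv0]
      have h2 : ((n0 : ℤ) * s - q' * k) * q + ((n0 : ℤ) * t + k * q) * q'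
          = (n0 : ℤ) * (s * q + t * q') := by ring
      rw [h2, hst, mul_one]
    have hu0R : |(u0 : ℝ)| ≤ |(q' : ℝ)| := by
      have h1 : |u0| ≤ |q'| := by rw [abs_of_nonneg hu0nn]; exact hu0lt.le
      exact_mod_cast h1
    have hqR : |(q : ℝ)| ≤ |(q' : ℝ)| := by exact_mod_cast hqq
    have hn0R : (n0 : ℝ) ≤ (N : ℝ) := by exact_mod_cast hn0.2.1
    have hrepR : (u0 : ℝ) * q + (v0 : ℝ) * q' = (n0 : ℝ) := by exact_mod_cast hrep
    have hv0R : |(v0 : ℝ)| ≤ N / |(q' : ℝ)| + |(q' : ℝ)| := by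
      have h1 : |(v0 : ℝ)| * |(q' : ℝ)| ≤ N + |(q' : ℝ)| * |(q' : ℝ)| := by
        rw [← abs_mul]
        have h2 : (v0 : ℝ) * q' = n0 - u0 * q := by linarith
        rw [h2]
        have h3 : |(n0 : ℝ) - u0 * q| ≤ |(n0 : ℝ)| + |(u0 : ℝ) * q| := abs_sub _ _
        have h4 : |(n0 : ℝ)| = n0 := abs_of_nonneg (Nat.cast_nonneg n0)
        have h5 : |(u0 : ℝ) * q| ≤ |(q' : ℝ)| * |(q' : ℝ)| := by
          rw [abs_mul]
          exact mul_le_mul hu0R hqR (abs_nonneg _) (abs_nonneg _)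
        linarith
      have h6 : |(v0 : ℝ)| ≤ (N + |(q' : ℝ)| * |(q' : ℝ)|) / |(q' : ℝ)| := by
        rw [le_div_iff₀ hq'R]; exact h1
      have h7 : ((N : ℝ) + |(q' : ℝ)| * |(q' : ℝ)|) / |(q' : ℝ)| = N / |(q' : ℝ)| + |(q' : ℝ)| := by
        rw [add_div, mul_div_assoc, div_self hq'R.ne', mul_one]
      rw [h7] at h6
      exact h6
    refine ⟨y * u0 - x * v0, ?_, ?_⟩
    · push_cast
      have h1 : |(y : ℝ) * u0 - x * v0| ≤ |(y : ℝ) * u0| + |(x : ℝ) * v0| := abs_sub _ _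
      have h2 : |(y : ℝ) * u0| ≤ X0 * |(q' : ℝ)| := by
        rw [abs_mul]
        exact mul_le_mul hy hu0R (abs_nonneg _) hX0
      have h3 : |(x : ℝ) * v0| ≤ X0 * (N / |(q' : ℝ)| + |(q' : ℝ)|) := by
        rw [abs_mul]
        exact mul_le_mul hx hv0R (abs_nonneg _) hX0
      have h4 : X0 * |(q' : ℝ)| + X0 * (N / |(q' : ℝ)| + |(q' : ℝ)|)
          = X0 * (2 * |(q' : ℝ)| + N / |(q' : ℝ)|) := by ring
      linarith
    · intro n hn1 hnN hnb
      have hle : n0 ≤ n := hmin n ⟨hn1, hnN, hnb⟩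
      have hmod : ((n0 : ℕ) : ZMod p) = (n : ZMod p) := by rw [hn0.2.2, hnb]
      have hdvd : p ∣ n - n0 := by
        have h1 := (ZMod.natCast_eq_natCast_iff n0 n p).mp hmod
        exact (Nat.modEq_iff_dvd' hle).mp h1
      obtain ⟨j, hj⟩ := hdvd
      have hnj : n = n0 + p * j := by omega
      refine ⟨u0 + j * x, v0 + j * y, ?_, ?_, ?_⟩
      · have h1 : (u0 + j * x) * q + (v0 + j * y) * q'
            = (u0 * q + v0 * q') + j * (x * q + y * q') := by ring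
        rw [h1, hrep, hxy, hnj]
        push_cast
        ring
      · ring
      · push_cast
        have h1 : |(u0 : ℝ) + j * x| ≤ |(u0 : ℝ)| + |(j : ℝ) * x| := abs_add_le _ _
        have hjR : (j : ℝ) ≤ N / p := by
          rw [le_div_iff₀ hpR]
          have h2 : j * p ≤ N := by
            have : p * j ≤ n := by omega
            calc j * p = p * j := mul_comm _ _
              _ ≤ n := this
              _ ≤ N := hnN
          exact_mod_cast h2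
        have h3 : |(j : ℝ) * x| ≤ N / p * X0 := by
          rw [abs_mul, abs_of_nonneg (Nat.cast_nonneg j : (0 : ℝ) ≤ (j : ℝ))]
          exact mul_le_mul hjR hx (abs_nonneg _) (by positivity)
        linarith
  · refine ⟨0, ?_, ?_⟩
    · push_cast
      rw [abs_zero]
      positivity
    · intro n h1 h2 h3
      exact absurd ⟨n, h1, h2, h3⟩ hex

end Pool.Agent.WB
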